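import Pool.Agent.helper24.SK.Spec

set_option autoImplicit false

namespace Pool.Agent.SK

open Finset ArithmeticFunction MeasureTheory
open Pool.Agent.CH (nit DPb Win Tset ph)
open Pool.Agent.EC (tri vN fN XN TL AdT)
open Pool.Agent.helper85.BVP (tau)
open GD (ks)

private theorem SPT_z (N : ℕ) (hN : 1 ≤ N) : 64 * N ^ 3 ≤ zN N ^ 7 := by
  have h1 : (1 : ℝ) ≤ (N : ℝ) ^ (3 / 7 : ℝ) := Real.one_le_rpow (by exact_mod_cast hN) (by norm_num)
  have h2 : 4 * (N : ℝ) ^ (3 / 7 : ℝ) < (zN N : ℝ) + 1 := Nat.lt_floor_add_one _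
  have h3 : 3 * (N : ℝ) ^ (3 / 7 : ℝ) ≤ (zN N : ℝ) := by linarith
  have h4 : (3 * (N : ℝ) ^ (3 / 7 : ℝ)) ^ 7 ≤ (zN N : ℝ) ^ 7 := by
    apply pow_le_pow_left₀ (by positivity) h3
  have h5 : ((N : ℝ) ^ (3 / 7 : ℝ)) ^ 7 = (N : ℝ) ^ 3 := by
    rw [← Real.rpow_natCast, ← Real.rpow_mul (Nat.cast_nonneg N), ← Real.rpow_natCast]
    norm_num
  rw [mul_pow, h5] at h4
  have h6 : (0 : ℝ) ≤ (N : ℝ) ^ 3 := by positivity
  have h7 : (64 : ℝ) * (N : ℝ) ^ 3 ≤ (zN N : ℝ) ^ 7 := by nlinarith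
  exact_mod_cast h7

private theorem SPT_tau (d : ℕ) (hd : 1 ≤ d) : 1 ≤ tau d := by
  unfold tau
  have : 1 ≤ #d.divisors := Finset.card_pos.mpr ⟨1, Nat.one_mem_divisors.mpr (by omega)⟩
  exact_mod_cast this

private theorem SPT_E (K : ℕ) : ∃ N₀ : ℕ, ∀ N : ℕ, N₀ ≤ N → ∀ d : ℕ, 1 ≤ d → d ≤ 64 * N ^ 3 → ∀ e : ℝ,
    |e| ≤ K * (1 + Real.log d) * tau d ^ K → |e| ≤ Real.log N ^ (K + 2) * tau d ^ (K + 2) := by
  have l1 : Filter.Tendsto (fun x : ℕ => Real.log x) Filter.atTop Filter.atTop :=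
    Real.tendsto_log_atTop.comp tendsto_natCast_atTop_atTop
  have e1 : ∀ᶠ N : ℕ in Filter.atTop, 1 ≤ N ∧ (8 * K + 8 : ℝ) ≤ Real.log N :=
    (Filter.eventually_ge_atTop 1).and (l1.eventually_ge_atTop _)
  obtain ⟨N₀, hN₀⟩ := Filter.eventually_atTop.1 e1
  refine ⟨N₀, fun N hN d hd1 hd e he => he.trans ?_⟩
  obtain ⟨f1, f2⟩ := hN₀ N hN
  have hK : (0 : ℝ) ≤ K := Nat.cast_nonneg K
  have hL1 : (1 : ℝ) ≤ Real.log N := by linarith
  have hd' : (1 : ℝ) ≤ d := by exact_mod_cast hd1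
  have hlog64 : Real.log 64 ≤ 5 := by
    have h64 : (64 : ℝ) = 2 ^ 6 := by norm_num
    rw [h64, Real.log_pow]
    have := Real.log_two_lt_d9
    push_cast
    linarith
  have hlogd : Real.log d ≤ 5 + 3 * Real.log N := by
    have hN0 : (0 : ℝ) < N := by exact_mod_cast f1
    have h1 : (d : ℝ) ≤ 64 * (N : ℝ) ^ 3 := by exact_mod_cast hd
    have h2 := Real.log_le_log (by linarith) h1
    rw [Real.log_mul (by norm_num) (by positivity), Real.log_pow] at h2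
    push_cast at h2
    linarith
  have hlogd0 : 0 ≤ Real.log d := Real.log_nonneg hd'
  have h3 : (K : ℝ) * (1 + Real.log d) ≤ Real.log N ^ (K + 2) := by
    calc (K : ℝ) * (1 + Real.log d) ≤ K * (6 + 3 * Real.log N) := by
          apply mul_le_mul_of_nonneg_left _ hK
          linarith
      _ ≤ Real.log N ^ 2 := by nlinarith
      _ ≤ Real.log N ^ (K + 2) := pow_le_pow_right₀ hL1 (by omega)
  have h4 := SPT_tau d hd1
  have h5 : tau d ^ K ≤ tau d ^ (K + 2) := pow_le_pow_right₀ h4 (by omega)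
  have h6 : 0 ≤ tau d ^ K := by positivity
  have h7 : 0 ≤ Real.log N ^ (K + 2) := by positivity
  exact mul_le_mul h3 h5 h6 h7

theorem SPT (h1 : DEC_stmt) (h2 : SML_stmt) (h3 : TI_stmt) : SPT_stmt := by
  intro r a b had A Bq
  obtain ⟨K, hK⟩ := h1 r
  obtain ⟨B1, hB1⟩ := h2 r a b had (A + 1) Bq
  obtain ⟨B2, hB2⟩ := h3 (A + 1) Bq (K + 2)
  refine ⟨max B1 B2, fun B hB => ?_⟩
  obtain ⟨N1, hN1⟩ := hB1 B ((le_max_left _ _).trans hB)
  obtain ⟨N2, hN2⟩ := hB2 B ((le_max_right _ _).trans hB)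
  obtain ⟨N3, hN3⟩ := SPT_E K
  have l1 : Filter.Tendsto (fun x : ℕ => Real.log x) Filter.atTop Filter.atTop :=
    Real.tendsto_log_atTop.comp tendsto_natCast_atTop_atTop
  obtain ⟨N4, hN4⟩ := Filter.eventually_atTop.1
    ((Filter.eventually_ge_atTop 1).and (l1.eventually_ge_atTop (129 : ℝ)))
  refine ⟨max (max N1 N2) (max N3 N4), fun N hN v hv q hq hqL χ => ?_⟩
  have g1 : N1 ≤ N := (le_max_left _ _).trans ((le_max_left _ _).trans hN)
  have g2 : N2 ≤ N := (le_max_right _ _).trans ((le_max_left _ _).trans hN)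
  have g3 : N3 ≤ N := (le_max_left _ _).trans ((le_max_right _ _).trans hN)
  have g4 : N4 ≤ N := (le_max_right _ _).trans ((le_max_right _ _).trans hN)
  obtain ⟨f1, f2⟩ := hN4 N g4
  obtain ⟨E₀, E₁, hE, hT⟩ := hK N (zN N) (YN N) a b f1 (SPT_z N f1)
  have hE0 := hN2 N g2 v hv q hq hqL χ 0 (by norm_num) E₀
    (fun d hd1 hd => hN3 N g3 d hd1 hd _ (hE d hd1).1)
  have hE1 := hN2 N g2 v hv q hq hqL χ 1 le_rfl E₁
    (fun d hd1 hd => hN3 N g3 d hd1 hd _ (hE d hd1).2)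
  have hS := hN1 N g1 v hv q hq hqL χ
  set T : ℝ := (N : ℝ) ^ 2 / Real.log N ^ (A + 1) with hTdef
  have hL0 : (0 : ℝ) < Real.log N := by linarith
  have hT0 : 0 ≤ T := by positivity
  have hsum : ∑ m ∈ Ioc 0 (64 * N ^ 3), ((TL N a b m : ℝ) : ℂ) * χ m * gj B N v m =
      (∑ i ∈ Icc 1 7, (((-1 : ℝ) ^ (i + 1) * (Nat.choose 7 i : ℝ) : ℝ) : ℂ) *
        ∑ m ∈ Ioc 0 (64 * N ^ 3), (((∏ k, uu N (zN N) (YN N) a b i k) m : ℝ) : ℂ) * χ m * gj B N v m) +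
      (∑ m ∈ Ioc 0 (64 * N ^ 3), (((E₀ * bgf (YN N) 0) m : ℝ) : ℂ) * χ m * gj B N v m) +
      ∑ m ∈ Ioc 0 (64 * N ^ 3), (((E₁ * bgf (YN N) 1) m : ℝ) : ℂ) * χ m * gj B N v m := by
    simp_rw [Finset.mul_sum]
    rw [Finset.sum_comm, ← Finset.sum_add_distrib, ← Finset.sum_add_distrib]
    refine Finset.sum_congr rfl fun m hm => ?_
    rw [Finset.mem_Ioc] at hm
    rw [hT m (by omega) hm.2]
    push_cast
    rw [add_mul, add_mul, add_mul, add_mul, Finset.sum_mul, Finset.sum_mul]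
    congr 2
    refine Finset.sum_congr rfl fun i _ => ?_
    ring
  rw [hsum]
  have hmain : ‖∑ i ∈ Icc 1 7, (((-1 : ℝ) ^ (i + 1) * (Nat.choose 7 i : ℝ) : ℝ) : ℂ) *
        ∑ m ∈ Ioc 0 (64 * N ^ 3), (((∏ k, uu N (zN N) (YN N) a b i k) m : ℝ) : ℂ) * χ m * gj B N v m‖ ≤
      127 * T := by
    refine (norm_sum_le _ _).trans ?_
    have hb : ∀ i ∈ Icc 1 7, ‖(((-1 : ℝ) ^ (i + 1) * (Nat.choose 7 i : ℝ) : ℝ) : ℂ) *
        ∑ m ∈ Ioc 0 (64 * N ^ 3), (((∏ k, uu N (zN N) (YN N) a b i k) m : ℝ) : ℂ) * χ m * gj B N v m‖ ≤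
        (Nat.choose 7 i : ℝ) * T := by
      intro i hi
      rw [norm_mul, Complex.norm_real, norm_mul, norm_pow, norm_neg, norm_one, one_pow, one_mul,
        Real.norm_natCast]
      exact mul_le_mul_of_nonneg_left (hS i hi) (Nat.cast_nonneg _)
    refine (Finset.sum_le_sum hb).trans ?_
    rw [← Finset.sum_mul]
    have h127 : ∑ i ∈ Icc 1 7, (Nat.choose 7 i : ℝ) = 127 := by
      have : ∑ i ∈ Icc 1 7, Nat.choose 7 i = 127 := by decide
      exact_mod_cast this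
    rw [h127]
  have htot : (127 * T + T) + T ≤ (N : ℝ) ^ 2 / Real.log N ^ A := by
    have e1 : (N : ℝ) ^ 2 / Real.log N ^ A = Real.log N * T := by
      rw [hTdef]
      field_simp
      ring
    rw [e1]
    nlinarith
  calc ‖_‖ ≤ (127 * T + T) + T := by
        refine (norm_add_le _ _).trans (add_le_add ((norm_add_le _ _).trans (add_le_add hmain hE0)) hE1)
    _ ≤ _ := htot

end Pool.Agent.SK
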